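import Mathlib

/-!
# Online restricted assignment of temporary tasks with known durations: definitions
-/

namespace Pool.Agent.H78.OnlineLB

open MeasureTheory

/-- A temporary task on `n` machines. `δ` is the minimum possible duration (known in advance). -/
structure Task (n : ℕ) (δ : ℝ) where
  /-- time of arrival -/
  arrival : ℝ
  /-- weight -/
  weight : ℝ
  weight_pos : 0 < weight
  /-- the set of admissible machines -/
  admissible : Finset (Fin n)
  admissible_nonempty : admissible.Nonempty
  /-- duration, known at arrival -/
  duration : ℝ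
  min_le_duration : δ ≤ duration

/-- A task is active from its arrival until it departs, `duration` time units later. -/
def Task.ActiveAt {n : ℕ} {δ : ℝ} (τ : Task n δ) (t : ℝ) : Prop :=
  τ.arrival ≤ t ∧ t < τ.arrival + τ.duration

/-- The tasks of an input sequence arrive one after the other (ties are allowed). -/
def InOrder {n : ℕ} {δ : ℝ} (σ : List (Task n δ)) : Prop :=
  σ.Pairwise fun x y => x.arrival ≤ y.arrival

open Classical in
/-- The load of machine `i` at time `t` when task number `j` is put on machine `a j`. -/
noncomputable def load {n : ℕ} {δ : ℝ} (σ : List (Task n δ)) (a : Fin σ.length → Fin n)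
    (i : Fin n) (t : ℝ) : ℝ :=
  ∑ j : Fin σ.length, if a j = i ∧ (σ.get j).ActiveAt t then (σ.get j).weight else 0

/-- The cost of an assignment: the largest load of a machine at any time. -/
noncomputable def cost {n : ℕ} {δ : ℝ} (σ : List (Task n δ)) (a : Fin σ.length → Fin n) : ℝ :=
  ⨆ p : Fin n × ℝ, load σ a p.1 p.2

/-- `OPT`: the least cost over all assignments to admissible machines. -/
noncomputable def opt {n : ℕ} {δ : ℝ} (σ : List (Task n δ)) : ℝ :=
  ⨅ a : {a : Fin σ.length → Fin n // ∀ j, a j ∈ (σ.get j).admissible}, cost σ a.1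

/-- A deterministic online algorithm which knows durations: it maps the list `h` of the tasks
that came before and the newly arrived task `τ` to an admissible machine for `τ`. -/
structure OnlineAlg (n : ℕ) (δ : ℝ) where
  choose : List (Task n δ) → Task n δ → Fin n
  choose_mem : ∀ h τ, choose h τ ∈ τ.admissible

/-- The assignment produced by an online algorithm on the input `σ`. -/
def OnlineAlg.assign {n : ℕ} {δ : ℝ} (A : OnlineAlg n δ) (σ : List (Task n δ)) :
    Fin σ.length → Fin n :=
  fun j => A.choose (σ.take j) (σ.get j)

/-- `A` is `c`-competitive. -/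
def OnlineAlg.Competitive {n : ℕ} {δ : ℝ} (A : OnlineAlg n δ) (c : ℝ) : Prop :=
  ∀ σ : List (Task n δ), InOrder σ → cost σ (A.assign σ) ≤ c * opt σ

/-- A randomized online algorithm: a random deterministic online algorithm. -/
structure RandAlg (n : ℕ) (δ : ℝ) where
  Ω : Type
  [measurableSpace : MeasurableSpace Ω]
  μ : Measure Ω
  [isProb : IsProbabilityMeasure μ]
  alg : Ω → OnlineAlg n δ
  measurable_choose : ∀ h τ, Measurable fun ω => (alg ω).choose h τ

/-- The expected cost of a randomized algorithm on the input `σ`. -/
noncomputable def RandAlg.expCost {n : ℕ} {δ : ℝ} (A : RandAlg n δ) (σ : List (Task n δ)) : ℝ :=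
  letI := A.measurableSpace
  ∫ ω, cost σ ((A.alg ω).assign σ) ∂A.μ

/-- `A` is `c`-competitive (in expectation, against an oblivious adversary). -/
def RandAlg.Competitive {n : ℕ} {δ : ℝ} (A : RandAlg n δ) (c : ℝ) : Prop :=
  ∀ σ : List (Task n δ), InOrder σ → A.expCost σ ≤ c * opt σ

/-- `c(n)` for deterministic algorithms. -/
noncomputable def detRatio (n : ℕ) (δ : ℝ) : ℝ :=
  sInf {c : ℝ | ∃ A : OnlineAlg n δ, A.Competitive c}

/-- `c(n)` for randomized algorithms. -/
noncomputable def randRatio (n : ℕ) (δ : ℝ) : ℝ :=
  sInf {c : ℝ | ∃ A : RandAlg n δ, A.Competitive c}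

end Pool.Agent.H78.OnlineLB
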