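import Pool.Agent.H78.OnlineLB.Defs

/-!
# The lower bound for online restricted assignment with known durations
-/

namespace Pool.Agent.H78.OnlineLB

open MeasureTheory

/-! ## The lower bound: the adversary -/

section Adversary

variable {n : ℕ} {δ : ℝ}

open Classical in
/-- Load of machine `i` at time `t` caused by the tasks `L`, when `h` came before and `x` gives the
fractions. -/
noncomputable def fracLoad (x : List (Task n δ) → Task n δ → Fin n → ℝ) :
    List (Task n δ) → List (Task n δ) → Fin n → ℝ → ℝ
  | _, [], _, _ => 0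
  | h, τ :: L, i, t =>
      (if τ.ActiveAt t then τ.weight * x h τ i else 0) + fracLoad x (h ++ [τ]) L i t

open Classical in
/-- Load of machine `i` at time `t` caused by the pairs (task, machine) in `L`. -/
noncomputable def pairLoad (L : List (Task n δ × Fin n)) (i : Fin n) (t : ℝ) : ℝ :=
  (L.map fun p => if p.2 = i ∧ p.1.ActiveAt t then p.1.weight else 0).sum

theorem fracLoad_append (x : List (Task n δ) → Task n δ → Fin n → ℝ)
    (h L L' : List (Task n δ)) (i : Fin n) (t : ℝ) :
    fracLoad x h (L ++ L') i t = fracLoad x h L i t + fracLoad x (h ++ L) L' i t := by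
  induction L generalizing h with
  | nil => simp [fracLoad]
  | cons τ L ih =>
    simp only [List.cons_append, fracLoad]
    rw [ih]
    simp [add_assoc]

theorem fracLoad_nonneg {x : List (Task n δ) → Task n δ → Fin n → ℝ} (hx : ∀ h τ i, 0 ≤ x h τ i)
    (h L : List (Task n δ)) (i : Fin n) (t : ℝ) : 0 ≤ fracLoad x h L i t := by
  induction L generalizing h with
  | nil => simp [fracLoad]
  | cons τ L ih =>
    simp only [fracLoad]
    have := ih (h ++ [τ])
    have h1 := mul_nonneg τ.weight_pos.le (hx h τ i)
    split_ifs <;> linarith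

theorem pairLoad_append (L L' : List (Task n δ × Fin n)) (i : Fin n) (t : ℝ) :
    pairLoad (L ++ L') i t = pairLoad L i t + pairLoad L' i t := by
  simp [pairLoad]

theorem pairLoad_eq_zero {L : List (Task n δ × Fin n)} {i : Fin n} {t : ℝ}
    (h : ∀ p ∈ L, p.2 = i → ¬ p.1.ActiveAt t) : pairLoad L i t = 0 := by
  unfold pairLoad
  apply List.sum_eq_zero
  intro y hy
  rw [List.mem_map] at hy
  obtain ⟨p, hp, rfl⟩ := hy
  rw [if_neg]
  rintro ⟨h1, h2⟩
  exact h p hp h1 h2

theorem pairLoad_nonneg (L : List (Task n δ × Fin n)) (i : Fin n) (t : ℝ) :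
    0 ≤ pairLoad L i t := by
  unfold pairLoad
  apply List.sum_nonneg
  intro y hy
  rw [List.mem_map] at hy
  obtain ⟨p, hp, rfl⟩ := hy
  have := p.1.weight_pos
  split_ifs <;> linarith

/-- Number of machines used by the level `k` adversary. -/
def machines : ℕ → ℕ
  | 0 => 1
  | k + 1 => machines k + (k + 1)

/-- Length of the time window used by the level `k` adversary. -/
def window (δ : ℝ) : ℕ → ℝ
  | 0 => 0
  | k + 1 => (k + 1) * window δ k + δ

theorem window_nonneg (hδ : 0 < δ) : ∀ k, 0 ≤ window δ k
  | 0 => le_rfl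
  | k + 1 => by
    have := window_nonneg hδ k
    simp only [window]
    positivity

/-- The outcome of the level `k` adversary, started at time `t0` after history `h` on the set `S`
of machines. -/
def Outcome (g : ℝ) (x : List (Task n δ) → Task n δ → Fin n → ℝ) (k : ℕ)
    (h : List (Task n δ)) (t0 : ℝ) (S : Finset (Fin n)) : Prop :=
  ∃ (L : List (Task n δ × Fin n)) (t1 : ℝ) (w : Fin n),
    w ∈ S ∧ t0 ≤ t1 ∧ t1 ≤ t0 + window δ k ∧
    InOrder (L.map Prod.fst) ∧
    (∀ p ∈ L, t0 ≤ p.1.arrival ∧ p.1.arrival ≤ t1 ∧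
      p.1.arrival + p.1.duration ≤ t0 + window δ k ∧ p.2 ∈ p.1.admissible ∧ p.2 ∈ S) ∧
    g * k ≤ fracLoad x h (L.map Prod.fst) w t1 ∧
    (∀ i t, pairLoad L i t ≤ 1) ∧ (∀ t, t1 ≤ t → pairLoad L w t = 0)

/-- The state of the level `k + 1` adversary after `r` rounds. -/
def RoundInv (g : ℝ) (x : List (Task n δ) → Task n δ → Fin n → ℝ) (k : ℕ)
    (h : List (Task n δ)) (t0 : ℝ) (S : Finset (Fin n)) (u : Fin n) (r : ℕ) : Prop :=
  ∃ (L : List (Task n δ × Fin n)) (V : Finset (Fin n)),
    V ⊆ S.erase u ∧ V.card ≤ r ∧ InOrder (L.map Prod.fst) ∧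
    (∀ p ∈ L, t0 ≤ p.1.arrival ∧ p.1.arrival ≤ t0 + r * window δ k ∧
      p.1.arrival + p.1.duration ≤ t0 + window δ (k + 1) ∧ p.2 ∈ p.1.admissible ∧ p.2 ∈ S ∧
      p.2 ≠ u) ∧
    (∀ t, t0 + r * window δ k ≤ t → t < t0 + window δ (k + 1) →
      g * r ≤ fracLoad x h (L.map Prod.fst) u t) ∧
    (∀ i t, pairLoad L i t ≤ 1) ∧
    (∀ i ∈ S, i ∉ V → ∀ t, t0 + r * window δ k ≤ t → pairLoad L i t = 0)

theorem inOrder_append {L L' : List (Task n δ)} {b : ℝ} (h : InOrder L) (h' : InOrder L')
    (hb : ∀ τ ∈ L, τ.arrival ≤ b) (hb' : ∀ τ ∈ L', b ≤ τ.arrival) : InOrder (L ++ L') := by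
  unfold InOrder at *
  rw [List.pairwise_append]
  exact ⟨h, h', fun a ha c hc => (hb a ha).trans (hb' c hc)⟩

theorem pairLoad_eq_zero_of_lt {L : List (Task n δ × Fin n)} {t0 t : ℝ}
    (h : ∀ p ∈ L, t0 ≤ p.1.arrival) (ht : t < t0) (i : Fin n) : pairLoad L i t = 0 :=
  pairLoad_eq_zero fun p hp _ hact => by
    have := h p hp
    have := hact.1
    linarith

theorem round_step (hδ : 0 < δ) {g : ℝ}
    {x : List (Task n δ) → Task n δ → Fin n → ℝ} (hx : ∀ h τ i, 0 ≤ x h τ i)
    (hpair : ∀ h τ (u v : Fin n), u ≠ v → τ.admissible = {u, v} → g ≤ x h τ u ∨ g ≤ x h τ v)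
    {k : ℕ} (ih : ∀ (h : List (Task n δ)) (t0 : ℝ) (S : Finset (Fin n)), machines k ≤ S.card →
      Outcome g x k h t0 S)
    (h : List (Task n δ)) (t0 : ℝ) (S : Finset (Fin n)) (hS : machines (k + 1) ≤ S.card)
    (u : Fin n) (hu : u ∈ S) (r : ℕ) (hr : r ≤ k) (hinv : RoundInv g x k h t0 S u r) :
    Outcome g x (k + 1) h t0 S ∨ RoundInv g x k h t0 S u (r + 1) := by
  classical
  obtain ⟨L, V, hVS, hVr, hL, hLp, hLu, hL1, hL0⟩ := hinv
  have hW := window_nonneg hδ k
  -- the reservoir
  have hR : machines k ≤ ((S.erase u) \ V).card := by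
    rw [Finset.card_sdiff_of_subset hVS, Finset.card_erase_of_mem hu]
    simp only [machines] at hS
    omega
  obtain ⟨L', t1, v, hv, ht0, ht1, hL', hLp', hLv', hL1', hL0'⟩ :=
    ih (h ++ L.map Prod.fst) (t0 + r * window δ k) _ hR
  simp only [Finset.mem_sdiff, Finset.mem_erase] at hv
  obtain ⟨⟨hvu, hvS⟩, hvV⟩ := hv
  have hrk : ((r : ℝ) + 1) * window δ k ≤ (k + 1) * window δ k := by
    apply mul_le_mul_of_nonneg_right _ hW
    have : (r : ℝ) ≤ k := by exact_mod_cast hr
    linarith
  have hwin : window δ (k + 1) = (k + 1) * window δ k + δ := by simp [window]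
  -- the new long task
  let τ : Task n δ :=
    { arrival := t1
      weight := 1
      weight_pos := one_pos
      admissible := {u, v}
      admissible_nonempty := ⟨u, by simp⟩
      duration := t0 + window δ (k + 1) - t1
      min_le_duration := by
        rw [hwin]
        nlinarith }
  have hτa : ∀ t, τ.ActiveAt t ↔ t1 ≤ t ∧ t < t0 + window δ (k + 1) := by
    intro t
    simp only [Task.ActiveAt, τ]
    constructor <;> rintro ⟨h1, h2⟩ <;> refine ⟨h1, ?_⟩ <;> linarith
  have ht1' : t1 < t0 + window δ (k + 1) := by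
    rw [hwin]
    nlinarith
  set h'' := h ++ L.map Prod.fst ++ L'.map Prod.fst with hh''
  -- load of OPT after the first two parts
  have hboth : ∀ i t, pairLoad L i t + pairLoad L' i t ≤ 1 := by
    intro i t
    by_cases hi : i ∈ (S.erase u) \ V
    · simp only [Finset.mem_sdiff, Finset.mem_erase] at hi
      by_cases ht : t0 + r * window δ k ≤ t
      · rw [hL0 i hi.1.2 hi.2 t ht, zero_add]
        exact hL1' i t
      · rw [pairLoad_eq_zero_of_lt (fun p hp => (hLp' p hp).1) (lt_of_not_ge ht), add_zero]
        exact hL1 i t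
    · have : pairLoad L' i t = 0 := by
        apply pairLoad_eq_zero
        rintro p hp rfl _
        exact hi (hLp' p hp).2.2.2.2
      rw [this, add_zero]
      exact hL1 i t
  have hu0 : ∀ t, pairLoad L u t + pairLoad L' u t = 0 := by
    intro t
    have h1 : pairLoad L u t = 0 := by
      apply pairLoad_eq_zero
      intro p hp h2 _
      exact (hLp p hp).2.2.2.2.2 h2
    have h2 : pairLoad L' u t = 0 := by
      apply pairLoad_eq_zero
      intro p hp h2 _
      have := (hLp' p hp).2.2.2.2
      rw [h2] at this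
      simp at this
    rw [h1, h2, add_zero]
  have hv0 : ∀ t, t1 ≤ t → pairLoad L v t + pairLoad L' v t = 0 := by
    intro t ht
    rw [hL0 v hvS hvV t (ht0.trans ht), hL0' t ht, add_zero]
  have hord : ∀ q : Fin n, InOrder ((L ++ L' ++ [(τ, q)]).map Prod.fst) := by
    intro q
    simp only [List.map_append, List.map_cons, List.map_nil]
    apply inOrder_append (b := t1)
    · apply inOrder_append (b := t0 + r * window δ k) hL hL'
      · intro y hy
        rw [List.mem_map] at hy
        obtain ⟨p, hp, rfl⟩ := hy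
        exact (hLp p hp).2.1
      · intro y hy
        rw [List.mem_map] at hy
        obtain ⟨p, hp, rfl⟩ := hy
        exact (hLp' p hp).1
    · simp [InOrder]
    · intro y hy
      rw [List.mem_append, List.mem_map, List.mem_map] at hy
      rcases hy with ⟨p, hp, rfl⟩ | ⟨p, hp, rfl⟩
      · exact ((hLp p hp).2.1).trans ht0
      · exact (hLp' p hp).2.1
    · intro y hy
      rw [List.mem_singleton] at hy
      subst hy
      exact le_rfl
  have hfrac : ∀ (q i : Fin n) (t : ℝ), fracLoad x h ((L ++ L' ++ [(τ, q)]).map Prod.fst) i t =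
      fracLoad x h (L.map Prod.fst) i t +
        fracLoad x (h ++ L.map Prod.fst) (L'.map Prod.fst) i t +
        (if τ.ActiveAt t then x h'' τ i else 0) := by
    intro q i t
    simp only [List.map_append, List.map_cons, List.map_nil]
    rw [fracLoad_append, fracLoad_append]
    simp [fracLoad, hh'', τ]
  have hpl : ∀ (q i : Fin n) (t : ℝ), pairLoad (L ++ L' ++ [(τ, q)]) i t =
      pairLoad L i t + pairLoad L' i t + (if q = i ∧ τ.ActiveAt t then 1 else 0) := by
    intro q i t
    rw [pairLoad_append, pairLoad_append]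
    simp [pairLoad, τ]
  rcases hpair h'' τ u v (Ne.symm hvu) rfl with hcase | hcase
  · -- the long task goes to `u`
    right
    refine ⟨L ++ L' ++ [(τ, v)], insert v V, ?_, ?_, hord v, ?_, ?_, ?_, ?_⟩
    · intro i hi
      rw [Finset.mem_insert] at hi
      rcases hi with rfl | hi
      · exact Finset.mem_erase.2 ⟨hvu, hvS⟩
      · exact hVS hi
    · exact (Finset.card_insert_le _ _).trans (by omega)
    · intro p hp
      have e1 : ((r + 1 : ℕ) : ℝ) * window δ k = r * window δ k + window δ k := by
        push_cast; ring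
      rw [List.mem_append, List.mem_append, List.mem_singleton] at hp
      rcases hp with (hp | hp) | rfl
      · obtain ⟨a1, a2, a3, a4, a5, a6⟩ := hLp p hp
        exact ⟨a1, by rw [e1]; linarith, a3, a4, a5, a6⟩
      · obtain ⟨a1, a2, a3, a4, a5⟩ := hLp' p hp
        simp only [Finset.mem_sdiff, Finset.mem_erase] at a5
        have : 0 ≤ (r : ℝ) * window δ k := by positivity
        refine ⟨by linarith, by rw [e1]; linarith, ?_, a4, a5.1.2, a5.1.1⟩
        rw [hwin]
        linarith
      · have : 0 ≤ (r : ℝ) * window δ k := by positivity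
        refine ⟨?_, ?_, ?_, ?_, hvS, hvu⟩
        · show t0 ≤ t1
          linarith
        · show t1 ≤ _
          rw [e1]; linarith
        · show t1 + (t0 + window δ (k + 1) - t1) ≤ _
          linarith
        · show v ∈ ({u, v} : Finset (Fin n))
          simp
    · intro t ht htt
      have e1 : ((r + 1 : ℕ) : ℝ) * window δ k = r * window δ k + window δ k := by
        push_cast; ring
      rw [e1] at ht
      rw [hfrac, if_pos ((hτa t).2 ⟨by linarith, htt⟩)]
      have h1 := hLu t (by linarith) htt
      have h2 := fracLoad_nonneg hx (h ++ L.map Prod.fst) (L'.map Prod.fst) u t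
      push_cast
      nlinarith
    · intro i t
      rw [hpl]
      split_ifs with hc
      · obtain ⟨rfl, hact⟩ := hc
        rw [hv0 t ((hτa t).1 hact).1]
        norm_num
      · rw [add_zero]
        exact hboth i t
    · intro i hi hiV t ht
      have e1 : ((r + 1 : ℕ) : ℝ) * window δ k = r * window δ k + window δ k := by
        push_cast; ring
      rw [e1] at ht
      rw [Finset.mem_insert, not_or] at hiV
      rw [hpl, if_neg (fun hc => hiV.1 hc.1.symm), add_zero,
        hL0 i hi hiV.2 t (by linarith), zero_add]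
      apply pairLoad_eq_zero
      rintro p hp _ hact
      have := (hLp' p hp).2.2.1
      have := hact.2
      linarith
  · -- the long task goes to `v`
    left
    refine ⟨L ++ L' ++ [(τ, u)], t1, v, hvS, ?_, ht1'.le, hord u, ?_, ?_, ?_, ?_⟩
    · have : 0 ≤ (r : ℝ) * window δ k := by positivity
      linarith
    · intro p hp
      have h0 : 0 ≤ (r : ℝ) * window δ k := by positivity
      rw [List.mem_append, List.mem_append, List.mem_singleton] at hp
      rcases hp with (hp | hp) | rfl
      · obtain ⟨a1, a2, a3, a4, a5, a6⟩ := hLp p hp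
        exact ⟨a1, a2.trans ht0, a3, a4, a5⟩
      · obtain ⟨a1, a2, a3, a4, a5⟩ := hLp' p hp
        simp only [Finset.mem_sdiff, Finset.mem_erase] at a5
        refine ⟨by linarith, a2, ?_, a4, a5.1.2⟩
        rw [hwin]
        linarith
      · refine ⟨?_, le_rfl, ?_, ?_, hu⟩
        · show t0 ≤ t1
          linarith
        · show t1 + (t0 + window δ (k + 1) - t1) ≤ _
          linarith
        · show u ∈ ({u, v} : Finset (Fin n))
          simp
    · rw [hfrac, if_pos ((hτa t1).2 ⟨le_rfl, ht1'⟩)]
      have h2 := fracLoad_nonneg hx h (L.map Prod.fst) v t1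
      push_cast
      linarith
    · intro i t
      rw [hpl]
      split_ifs with hc
      · obtain ⟨rfl, hact⟩ := hc
        rw [hu0]
        norm_num
      · rw [add_zero]
        exact hboth i t
    · intro t ht
      rw [hpl, if_neg (fun hc => hvu hc.1.symm), add_zero]
      exact hv0 t ht

theorem outcome_all (hδ : 0 < δ) {g : ℝ}
    {x : List (Task n δ) → Task n δ → Fin n → ℝ} (hx : ∀ h τ i, 0 ≤ x h τ i)
    (hpair : ∀ h τ (u v : Fin n), u ≠ v → τ.admissible = {u, v} → g ≤ x h τ u ∨ g ≤ x h τ v)
    (k : ℕ) : ∀ (h : List (Task n δ)) (t0 : ℝ) (S : Finset (Fin n)), machines k ≤ S.card →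
      Outcome g x k h t0 S := by
  induction k with
  | zero =>
    intro h t0 S hS
    simp only [machines] at hS
    obtain ⟨w, hw⟩ := Finset.card_pos.1 (by omega : 0 < S.card)
    exact ⟨[], t0, w, hw, le_rfl, by simp [window], by simp [InOrder], by simp,
      by simp [fracLoad], by simp [pairLoad], by simp [pairLoad]⟩
  | succ k ih =>
    intro h t0 S hS
    obtain ⟨u, hu⟩ := Finset.card_pos.1 (by simp only [machines] at hS; omega : 0 < S.card)
    have hW := window_nonneg hδ k
    have hwin : window δ (k + 1) = (k + 1) * window δ k + δ := by simp [window]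
    have key : ∀ r : ℕ, r ≤ k + 1 → Outcome g x (k + 1) h t0 S ∨ RoundInv g x k h t0 S u r := by
      intro r
      induction r with
      | zero =>
        intro _
        right
        exact ⟨[], ∅, by simp, by simp, by simp [InOrder], by simp, by simp [fracLoad],
          by simp [pairLoad], by simp [pairLoad]⟩
      | succ r ihr =>
        intro hr
        rcases ihr (by omega) with h1 | h1
        · exact Or.inl h1
        · exact round_step hδ hx hpair ih h t0 S hS u hu r (by omega) h1
    rcases key (k + 1) le_rfl with h1 | ⟨L, V, hVS, hVr, hL, hLp, hLu, hL1, hL0⟩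
    · exact h1
    · push_cast at hLp hLu hL0
      have h0 : 0 ≤ ((k : ℝ) + 1) * window δ k := by positivity
      refine ⟨L, t0 + (k + 1) * window δ k, u, hu, by linarith, by rw [hwin]; linarith, hL,
        ?_, ?_, hL1, ?_⟩
      · intro p hp
        obtain ⟨a1, a2, a3, a4, a5, a6⟩ := hLp p hp
        exact ⟨a1, a2, a3, a4, a5⟩
      · push_cast
        exact hLu _ le_rfl (by rw [hwin]; linarith)
      · intro t _
        apply pairLoad_eq_zero
        intro p hp h2 _
        exact (hLp p hp).2.2.2.2.2 h2

open Classical in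
theorem sum_eq_fracLoad (x : List (Task n δ) → Task n δ → Fin n → ℝ) (i : Fin n) (t : ℝ) :
    ∀ (σ h : List (Task n δ)),
    (∑ j : Fin σ.length, if (σ.get j).ActiveAt t then
      (σ.get j).weight * x (h ++ σ.take j) (σ.get j) i else 0) = fracLoad x h σ i t
  | [], h => by simp [fracLoad]
  | τ :: σ, h => by
    have ih := sum_eq_fracLoad x i t σ (h ++ [τ])
    simp only [List.length_cons]
    rw [Fin.sum_univ_succ]
    simp only [fracLoad, ← ih]
    congr 1
    · simp
    · apply Finset.sum_congr rfl
      intro j _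
      simp

open Classical in
theorem load_eq_pairLoad (L : List (Task n δ × Fin n)) (i : Fin n) (t : ℝ) :
    load (L.map Prod.fst) (fun j => (L.get (j.cast (by simp))).2) i t = pairLoad L i t := by
  unfold load pairLoad
  rw [← Fin.sum_univ_fun_getElem]
  apply Fintype.sum_equiv (finCongr (by simp))
  intro j
  simp

theorem load_le_sum (σ : List (Task n δ)) (a : Fin σ.length → Fin n) (i : Fin n) (t : ℝ) :
    load σ a i t ≤ ∑ j : Fin σ.length, (σ.get j).weight := by
  unfold load
  apply Finset.sum_le_sum
  intro j _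
  have := (σ.get j).weight_pos
  split_ifs <;> linarith

theorem load_nonneg (σ : List (Task n δ)) (a : Fin σ.length → Fin n) (i : Fin n) (t : ℝ) :
    0 ≤ load σ a i t := by
  unfold load
  apply Finset.sum_nonneg
  intro j _
  have := (σ.get j).weight_pos
  split_ifs <;> linarith

theorem load_le_cost (σ : List (Task n δ)) (a : Fin σ.length → Fin n) (i : Fin n) (t : ℝ) :
    load σ a i t ≤ cost σ a := by
  unfold cost
  apply le_ciSup (f := fun p : Fin n × ℝ => load σ a p.1 p.2) _ (i, t)
  refine ⟨∑ j : Fin σ.length, (σ.get j).weight, ?_⟩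
  rintro _ ⟨p, rfl⟩
  exact load_le_sum σ a p.1 p.2

theorem cost_nonneg (σ : List (Task n δ)) (a : Fin σ.length → Fin n) : 0 ≤ cost σ a := by
  unfold cost
  exact Real.iSup_nonneg fun p => load_nonneg σ a p.1 p.2

theorem cost_le [NeZero n] {σ : List (Task n δ)} {a : Fin σ.length → Fin n} {C : ℝ}
    (h : ∀ i t, load σ a i t ≤ C) : cost σ a ≤ C := by
  unfold cost
  exact ciSup_le fun p => h p.1 p.2

theorem opt_nonneg (σ : List (Task n δ)) : 0 ≤ opt σ := by
  unfold opt
  exact Real.iInf_nonneg fun a => cost_nonneg σ a.1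

theorem opt_le_cost (σ : List (Task n δ)) (a : Fin σ.length → Fin n)
    (ha : ∀ j, a j ∈ (σ.get j).admissible) : opt σ ≤ cost σ a := by
  unfold opt
  exact ciInf_le (f := fun a : {a : Fin σ.length → Fin n // ∀ j, a j ∈ (σ.get j).admissible} =>
    cost σ a.1) ⟨0, by rintro _ ⟨a, rfl⟩; exact cost_nonneg σ a.1⟩ ⟨a, ha⟩

/-- The hard instance. -/
theorem exists_hard (hδ : 0 < δ) {g : ℝ}
    {x : List (Task n δ) → Task n δ → Fin n → ℝ} (hx : ∀ h τ i, 0 ≤ x h τ i)
    (hpair : ∀ h τ (u v : Fin n), u ≠ v → τ.admissible = {u, v} → g ≤ x h τ u ∨ g ≤ x h τ v)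
    (hone : ∀ h τ (w : Fin n), τ.admissible = {w} → 1 ≤ x h τ w)
    (k : ℕ) (hk : machines k ≤ n) :
    ∃ (σ : List (Task n δ)) (i : Fin n) (t : ℝ), InOrder σ ∧ opt σ ≤ 1 ∧
      g * k + 1 ≤ fracLoad x [] σ i t := by
  classical
  obtain ⟨L, t1, w, -, -, -, hL, hLp, hLw, hL1, hL0⟩ :=
    outcome_all hδ hx hpair k [] 0 Finset.univ (by simpa using hk)
  have hn : 0 < n := by
    rcases Nat.eq_zero_or_pos n with h0 | h0
    · subst h0
      exact w.elim0
    · exact h0
  have : NeZero n := ⟨hn.ne'⟩
  let τ : Task n δ :=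
    { arrival := t1
      weight := 1
      weight_pos := one_pos
      admissible := {w}
      admissible_nonempty := ⟨w, by simp⟩
      duration := δ
      min_le_duration := le_rfl }
  have hτ : τ.ActiveAt t1 := ⟨le_rfl, by simp only [τ]; linarith⟩
  refine ⟨(L ++ [(τ, w)]).map Prod.fst, w, t1, ?_, ?_, ?_⟩
  · simp only [List.map_append, List.map_cons, List.map_nil]
    apply inOrder_append (b := t1) hL
    · simp [InOrder]
    · intro y hy
      rw [List.mem_map] at hy
      obtain ⟨p, hp, rfl⟩ := hy
      exact (hLp p hp).2.1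
    · intro y hy
      rw [List.mem_singleton] at hy
      subst hy
      exact le_rfl
  · refine (opt_le_cost _ (fun j => ((L ++ [(τ, w)]).get (j.cast (by simp))).2) ?_).trans ?_
    · intro j
      have hmem : ∀ p ∈ L ++ [(τ, w)], p.2 ∈ p.1.admissible := by
        intro p hp
        rw [List.mem_append, List.mem_singleton] at hp
        rcases hp with hp | rfl
        · exact (hLp p hp).2.2.2.1
        · simp [τ]
      have h1 := hmem ((L ++ [(τ, w)]).get (j.cast (by simp))) (List.get_mem _ _)
      have h2 : ((L ++ [(τ, w)]).map Prod.fst).get j =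
          ((L ++ [(τ, w)]).get (j.cast (by simp))).1 := by
        simp [-List.map_append]
      rw [h2]
      exact h1
    · apply cost_le
      intro i t
      rw [load_eq_pairLoad, pairLoad_append]
      have h2 : pairLoad [(τ, w)] i t = if w = i ∧ τ.ActiveAt t then 1 else 0 := by
        simp [pairLoad, τ]
      rw [h2]
      split_ifs with hc
      · obtain ⟨rfl, hact⟩ := hc
        rw [hL0 t hact.1, zero_add]
      · rw [add_zero]
        exact hL1 i t
  · simp only [List.map_append, List.map_cons, List.map_nil]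
    rw [fracLoad_append]
    have h2 : fracLoad x ([] ++ L.map Prod.fst) [τ] w t1 = x ([] ++ L.map Prod.fst) τ w := by
      simp only [fracLoad, if_pos hτ, add_zero]
      simp [τ]
    rw [h2]
    have := hone ([] ++ L.map Prod.fst) τ w rfl
    linarith

theorem det_lower (hδ : 0 < δ) (A : OnlineAlg n δ) {c : ℝ} (hA : A.Competitive c) (k : ℕ)
    (hk : machines k ≤ n) : (k : ℝ) + 1 ≤ c := by
  classical
  obtain ⟨σ, i, t, hσ, hopt, hload⟩ := exists_hard hδ (g := 1)
    (x := fun h τ i => if A.choose h τ = i then 1 else 0)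
    (fun h τ i => by split_ifs <;> norm_num)
    (fun h τ u v huv hτ => by
      have := A.choose_mem h τ
      rw [hτ, Finset.mem_insert, Finset.mem_singleton] at this
      rcases this with h1 | h1
      · left; simp [h1]
      · right; simp [h1])
    (fun h τ w hτ => by
      have := A.choose_mem h τ
      rw [hτ, Finset.mem_singleton] at this
      simp [this]) k hk
  have h1 : load σ (A.assign σ) i t =
      fracLoad (fun h τ i => if A.choose h τ = i then 1 else 0) [] σ i t := by
    rw [← sum_eq_fracLoad]
    unfold load OnlineAlg.assign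
    apply Finset.sum_congr rfl
    intro j _
    rw [List.nil_append]
    by_cases ha : A.choose (σ.take j) (σ.get j) = i
    · by_cases hb : (σ.get j).ActiveAt t
      · rw [if_pos ⟨ha, hb⟩, if_pos hb, if_pos ha, mul_one]
      · rw [if_neg (fun h => hb h.2), if_neg hb]
    · rw [if_neg (fun h => ha h.1), if_neg ha, mul_zero, ite_self]
  have h2 := (load_le_cost σ (A.assign σ) i t).trans (hA σ hσ)
  rw [h1] at h2
  have h3 := opt_nonneg σ
  rw [one_mul] at hload
  have hk0 : (0 : ℝ) ≤ k := Nat.cast_nonneg k
  have h4 : 0 < c * opt σ := by linarith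
  have h5 : 0 < c := by
    by_contra hc
    have := mul_nonpos_of_nonpos_of_nonneg (not_lt.1 hc) h3
    linarith
  nlinarith

theorem rand_lower (hδ : 0 < δ) (A : RandAlg n δ) {c : ℝ} (hA : A.Competitive c) (k : ℕ)
    (hk : machines k ≤ n) : (1 / 2 : ℝ) * k + 1 ≤ c := by
  classical
  let _ := A.measurableSpace
  have := A.isProb
  have hms : ∀ h τ (i : Fin n), MeasurableSet {ω | (A.alg ω).choose h τ = i} := by
    intro h τ i
    exact A.measurable_choose h τ (measurableSet_singleton i)
  obtain ⟨σ, i, t, hσ, hopt, hload⟩ := exists_hard hδ (g := 1 / 2)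
    (x := fun h τ i => A.μ.real {ω | (A.alg ω).choose h τ = i})
    (fun h τ i => measureReal_nonneg)
    (fun h τ u v huv hτ => by
      have h1 : A.μ.real ({ω | (A.alg ω).choose h τ = u} ∪ {ω | (A.alg ω).choose h τ = v}) = 1 := by
        have : {ω | (A.alg ω).choose h τ = u} ∪ {ω | (A.alg ω).choose h τ = v} = Set.univ := by
          ext ω
          have := (A.alg ω).choose_mem h τ
          rw [hτ, Finset.mem_insert, Finset.mem_singleton] at this
          simpa using this
        rw [this]
        exact probReal_univ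
      have h2 := measureReal_union_le (μ := A.μ) {ω | (A.alg ω).choose h τ = u}
        {ω | (A.alg ω).choose h τ = v}
      rw [h1] at h2
      by_contra hcon
      push Not at hcon
      linarith [hcon.1, hcon.2])
    (fun h τ w hτ => by
      have : {ω | (A.alg ω).choose h τ = w} = Set.univ := by
        ext ω
        have := (A.alg ω).choose_mem h τ
        rw [hτ, Finset.mem_singleton] at this
        simpa using this
      simp only [this]
      exact probReal_univ.ge) k hk
  -- integrability of any function of the assignment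
  have hmeas : Measurable fun ω => (A.alg ω).assign σ := by
    rw [measurable_pi_iff]
    intro j
    exact A.measurable_choose _ _
  have hint : ∀ f : (Fin σ.length → Fin n) → ℝ, Integrable (fun ω => f ((A.alg ω).assign σ)) A.μ := by
    intro f
    refine Integrable.of_bound (C := ∑ a, |f a|)
      ((measurable_of_countable f).comp hmeas).aestronglyMeasurable ?_
    filter_upwards with ω
    rw [Real.norm_eq_abs]
    exact Finset.single_le_sum (f := fun a => |f a|) (fun a _ => abs_nonneg _) (Finset.mem_univ _)
  have h1 : ∫ ω, load σ ((A.alg ω).assign σ) i t ∂A.μ =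
      fracLoad (fun h τ i => A.μ.real {ω | (A.alg ω).choose h τ = i}) [] σ i t := by
    rw [← sum_eq_fracLoad]
    unfold load
    rw [integral_finsetSum]
    · apply Finset.sum_congr rfl
      intro j _
      rw [List.nil_append]
      by_cases hb : (σ.get j).ActiveAt t
      · have h5 : (fun ω => if (A.alg ω).assign σ j = i ∧ (σ.get j).ActiveAt t
            then (σ.get j).weight else 0) =
            Set.indicator {ω | (A.alg ω).choose (σ.take j) (σ.get j) = i}
              (fun _ => (σ.get j).weight) := by
          ext ω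
          by_cases hc : (A.alg ω).choose (σ.take j) (σ.get j) = i
          · rw [Set.indicator_of_mem (show ω ∈ {ω | (A.alg ω).choose (σ.take j) (σ.get j) = i}
              from hc), if_pos ⟨hc, hb⟩]
          · rw [Set.indicator_of_notMem (show ω ∉ {ω | (A.alg ω).choose (σ.take j) (σ.get j) = i}
              from hc), if_neg (fun h => hc h.1)]
        rw [h5, integral_indicator_const _ (hms _ _ _), if_pos hb, smul_eq_mul, mul_comm]
      · rw [if_neg hb]
        have h5 : (fun ω => if (A.alg ω).assign σ j = i ∧ (σ.get j).ActiveAt t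
            then (σ.get j).weight else 0) = fun _ => 0 := by
          ext ω
          rw [if_neg (fun h => hb h.2)]
        rw [h5, integral_zero]
    · intro j _
      exact hint fun a => if a j = i ∧ (σ.get j).ActiveAt t then (σ.get j).weight else 0
  have h2 : ∫ ω, load σ ((A.alg ω).assign σ) i t ∂A.μ ≤ A.expCost σ := by
    unfold RandAlg.expCost
    apply integral_mono (hint fun a => load σ a i t) (hint fun a => cost σ a)
    intro ω
    exact load_le_cost σ _ i t
  have h3 := opt_nonneg σ
  have h2' := h2.trans (hA σ hσ)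
  rw [h1] at h2'
  have hk0 : (0 : ℝ) ≤ k := Nat.cast_nonneg k
  have h4 : 0 < c * opt σ := by linarith
  have h5 : 0 < c := by
    by_contra hc
    have := mul_nonpos_of_nonpos_of_nonneg (not_lt.1 hc) h3
    linarith
  nlinarith

theorem machines_eq (k : ℕ) : 2 * machines k = k * (k + 1) + 2 := by
  induction k with
  | zero => rfl
  | succ k ih =>
    simp only [machines]
    have : 2 * (machines k + (k + 1)) = 2 * machines k + 2 * (k + 1) := by ring
    rw [this, ih]
    ring

/-- The largest `k` with `machines k ≤ n`. -/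
theorem exists_level (hn : 1 ≤ n) : ∃ k : ℕ, machines k ≤ n ∧ Real.sqrt (2 * n) ≤ k + 3 / 2 := by
  classical
  have h0 : machines 0 ≤ n := hn
  have hex : ∃ k, ¬ machines (k + 1) ≤ n := by
    refine ⟨n, ?_⟩
    have := machines_eq (n + 1)
    nlinarith
  refine ⟨Nat.find hex, ?_, ?_⟩
  · rcases Nat.eq_zero_or_pos (Nat.find hex) with h1 | h1
    · rw [h1]; exact h0
    · have := Nat.find_min hex (Nat.sub_one_lt h1.ne')
      rw [not_not, Nat.sub_add_cancel h1] at this
      exact this
  · have h2 := Nat.find_spec hex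
    set k := Nat.find hex
    have h3 := machines_eq (k + 1)
    have h4 : 2 * n ≤ (k + 1) * (k + 2) := by
      have : (k + 1) * (k + 1 + 1) = (k + 1) * (k + 2) := by ring
      omega
    rw [Real.sqrt_le_left (by positivity)]
    have h5 : (2 * n : ℝ) ≤ (k + 1) * (k + 2) := by exact_mod_cast h4
    nlinarith

end Adversary

end Pool.Agent.H78.OnlineLB
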