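import Pool.Agent.H78.OnlineLB.Lower

/-!
# The Robin Hood upper bound for online restricted assignment
-/

namespace Pool.Agent.H78.OnlineLB

open MeasureTheory

/-! ## The upper bound: the Robin Hood algorithm -/

section RobinHood

variable {n : ℕ} {δ : ℝ}

open Classical in
/-- Load of machine `i` at time `t` caused by the first `m` tasks. -/
noncomputable def ldB (T : ℕ → Task n δ) (a : ℕ → Fin n) (m : ℕ) (i : Fin n) (t : ℝ) : ℝ :=
  ∑ j ∈ Finset.range m, if a j = i ∧ (T j).ActiveAt t then (T j).weight else 0

open Classical in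
/-- Average load at the arrival of task `m`, this task included. -/
noncomputable def avg (T : ℕ → Task n δ) (m : ℕ) : ℝ :=
  (∑ j ∈ Finset.range (m + 1), if (T j).ActiveAt (T m).arrival then (T j).weight else 0) / n

/-- The lower bound on `OPT` kept by the algorithm. -/
noncomputable def Lb (T : ℕ → Task n δ) : ℕ → ℝ
  | 0 => max (T 0).weight (avg T 0)
  | m + 1 => max (Lb T m) (max (T (m + 1)).weight (avg T (m + 1)))

/-- Machine `i` is rich when task `m` arrives. -/
def Rich (T : ℕ → Task n δ) (a : ℕ → Fin n) (m : ℕ) (i : Fin n) : Prop :=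
  Real.sqrt n * Lb T m ≤ ldB T a m i (T m).arrival

open Classical in
/-- The number of consecutive steps, up to step `m`, during which `i` has been rich. -/
noncomputable def run (T : ℕ → Task n δ) (a : ℕ → Fin n) : ℕ → Fin n → ℕ
  | 0, i => if Rich T a 0 i then 1 else 0
  | m + 1, i => if Rich T a (m + 1) i then run T a m i + 1 else 0

theorem ldB_congr {T T' : ℕ → Task n δ} {a a' : ℕ → Fin n} {m : ℕ}
    (hT : ∀ j, j < m → T j = T' j) (ha : ∀ j, j < m → a j = a' j) (i : Fin n) (t : ℝ) :
    ldB T a m i t = ldB T' a' m i t := by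
  unfold ldB
  apply Finset.sum_congr rfl
  intro j hj
  rw [Finset.mem_range] at hj
  rw [hT j hj, ha j hj]

theorem avg_congr {T T' : ℕ → Task n δ} {m : ℕ} (hT : ∀ j, j ≤ m → T j = T' j) :
    avg T m = avg T' m := by
  unfold avg
  congr 1
  apply Finset.sum_congr rfl
  intro j hj
  rw [Finset.mem_range] at hj
  rw [hT j (by omega), hT m le_rfl]

theorem Lb_congr {T T' : ℕ → Task n δ} : ∀ {m : ℕ}, (∀ j, j ≤ m → T j = T' j) →
    Lb T m = Lb T' m
  | 0, hT => by
    simp only [Lb]
    rw [hT 0 le_rfl, avg_congr hT]
  | m + 1, hT => by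
    simp only [Lb]
    rw [hT (m + 1) le_rfl, avg_congr hT, Lb_congr (m := m) fun j hj => hT j (by omega)]

theorem rich_congr {T T' : ℕ → Task n δ} {a a' : ℕ → Fin n} {m : ℕ}
    (hT : ∀ j, j ≤ m → T j = T' j) (ha : ∀ j, j < m → a j = a' j) (i : Fin n) :
    Rich T a m i = Rich T' a' m i := by
  unfold Rich
  rw [Lb_congr hT, ldB_congr (fun j hj => hT j hj.le) ha, hT m le_rfl]

theorem run_congr {T T' : ℕ → Task n δ} {a a' : ℕ → Fin n} : ∀ {m : ℕ},
    (∀ j, j ≤ m → T j = T' j) → (∀ j, j < m → a j = a' j) → ∀ i, run T a m i = run T' a' m i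
  | 0, hT, ha, i => by
    have h := rich_congr hT ha i
    by_cases h1 : Rich T a 0 i
    · have h2 : Rich T' a' 0 i := h ▸ h1
      simp only [run, if_pos h1, if_pos h2]
    · have h2 : ¬ Rich T' a' 0 i := h ▸ h1
      simp only [run, if_neg h1, if_neg h2]
  | m + 1, hT, ha, i => by
    have h := rich_congr hT ha i
    have ih := run_congr (m := m) (fun j hj => hT j (by omega)) (fun j hj => ha j (by omega)) i
    by_cases h1 : Rich T a (m + 1) i
    · have h2 : Rich T' a' (m + 1) i := h ▸ h1
      simp only [run, if_pos h1, if_pos h2, ih]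
    · have h2 : ¬ Rich T' a' (m + 1) i := h ▸ h1
      simp only [run, if_neg h1, if_neg h2]

theorem Lb_mono (T : ℕ → Task n δ) {m m' : ℕ} (h : m ≤ m') : Lb T m ≤ Lb T m' := by
  induction m', h using Nat.le_induction with
  | base => exact le_rfl
  | succ m' _ ih => exact ih.trans (le_max_left _ _)

theorem weight_le_Lb (T : ℕ → Task n δ) (m : ℕ) : (T m).weight ≤ Lb T m := by
  cases m with
  | zero => exact le_max_left _ _
  | succ m => exact (le_max_left _ _).trans (le_max_right _ _)

theorem avg_le_Lb (T : ℕ → Task n δ) (m : ℕ) : avg T m ≤ Lb T m := by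
  cases m with
  | zero => exact le_max_right _ _
  | succ m => exact (le_max_right _ _).trans (le_max_right _ _)

theorem Lb_pos (T : ℕ → Task n δ) (m : ℕ) : 0 < Lb T m :=
  (T m).weight_pos.trans_le (weight_le_Lb T m)

theorem ldB_succ_le (T : ℕ → Task n δ) (a : ℕ → Fin n) (m : ℕ) (i : Fin n) (t : ℝ) :
    ldB T a (m + 1) i t ≤ ldB T a m i t + (T m).weight := by
  unfold ldB
  rw [Finset.sum_range_succ]
  have := (T m).weight_pos
  split_ifs <;> linarith

theorem ldB_anti {T : ℕ → Task n δ} (a : ℕ → Fin n) {m : ℕ} (i : Fin n) {t t' : ℝ}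
    (htt : t ≤ t') (hT : ∀ j, j < m → (T j).arrival ≤ t) : ldB T a m i t' ≤ ldB T a m i t := by
  unfold ldB
  apply Finset.sum_le_sum
  intro j hj
  rw [Finset.mem_range] at hj
  have hw := (T j).weight_pos
  by_cases h1 : a j = i ∧ (T j).ActiveAt t'
  · rw [if_pos h1, if_pos ⟨h1.1, hT j hj, htt.trans_lt h1.2.2⟩]
  · rw [if_neg h1]
    split_ifs <;> linarith

open Classical in
theorem sum_ldB (T : ℕ → Task n δ) (a : ℕ → Fin n) (m : ℕ) (t : ℝ) :
    ∑ i, ldB T a m i t =
      ∑ j ∈ Finset.range m, if (T j).ActiveAt t then (T j).weight else 0 := by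
  unfold ldB
  rw [Finset.sum_comm]
  apply Finset.sum_congr rfl
  intro j _
  by_cases h : (T j).ActiveAt t
  · simp [h]
  · simp [h]

theorem ldB_nonneg (T : ℕ → Task n δ) (a : ℕ → Fin n) (m : ℕ) (i : Fin n) (t : ℝ) :
    0 ≤ ldB T a m i t := by
  unfold ldB
  apply Finset.sum_nonneg
  intro j _
  have := (T j).weight_pos
  split_ifs <;> linarith

theorem le_run {T : ℕ → Task n δ} {a : ℕ → Fin n} {i : Fin n} : ∀ {m r : ℕ}, r ≤ run T a m i →
    ∀ s, s ≤ m → m < s + r → Rich T a s i
  | 0, r, hr, s, hs, hsr => by
    have hs0 : s = 0 := by omega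
    subst hs0
    by_contra hcon
    simp only [run, if_neg hcon] at hr
    omega
  | m + 1, r, hr, s, hs, hsr => by
    by_cases hrich : Rich T a (m + 1) i
    · simp only [run, if_pos hrich] at hr
      rcases Nat.lt_or_ge s (m + 1) with h1 | h1
      · exact le_run (m := m) (r := r - 1) (by omega) s (by omega) (by omega)
      · have : s = m + 1 := by omega
        rw [this]
        exact hrich
    · simp only [run, if_neg hrich] at hr
      omega

theorem run_spec {T : ℕ → Task n δ} {a : ℕ → Fin n} {i : Fin n} (h0 : ¬ Rich T a 0 i) :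
    ∀ m, run T a m i ≤ m ∧ ¬ Rich T a (m - run T a m i) i
  | 0 => by simp [run, h0]
  | m + 1 => by
    obtain ⟨h1, h2⟩ := run_spec h0 m
    by_cases hrich : Rich T a (m + 1) i
    · simp only [run, if_pos hrich]
      refine ⟨by omega, ?_⟩
      rwa [Nat.add_sub_add_right]
    · simp only [run, if_neg hrich]
      exact ⟨by omega, by simpa using hrich⟩

/-- `run` at an earlier step of the same run. -/
theorem run_earlier {T : ℕ → Task n δ} {a : ℕ → Fin n} {i : Fin n} (h0 : ¬ Rich T a 0 i)
    {m s : ℕ} (hs : s ≤ m) (hsr : m < s + run T a m i) :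
    run T a s i = s - (m - run T a m i) := by
  induction m with
  | zero =>
    have : s = 0 := by omega
    subst this
    simp [run, h0] at hsr
  | succ m ih =>
    rcases Nat.lt_or_ge s (m + 1) with h1 | h1
    · have hrich : Rich T a (m + 1) i := by
        by_contra hcon
        simp only [run, if_neg hcon] at hsr
        omega
      simp only [run, if_pos hrich] at hsr ⊢
      rw [ih (by omega) (by omega)]
      omega
    · have h2 : s = m + 1 := by omega
      subst h2
      have := (run_spec h0 (m + 1)).1
      omega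

theorem card_rich_le [NeZero n] (T : ℕ → Task n δ) (a : ℕ → Fin n) (m : ℕ) (K : Finset (Fin n))
    (hK : ∀ i ∈ K, Rich T a m i) : (K.card : ℝ) ≤ Real.sqrt n := by
  have hn : (0 : ℝ) < n := by
    have := NeZero.pos n
    exact_mod_cast this
  have hs : 0 < Real.sqrt n := Real.sqrt_pos.2 hn
  have hL := Lb_pos T m
  have h1 : (K.card : ℝ) * (Real.sqrt n * Lb T m) ≤ ∑ i ∈ K, ldB T a m i (T m).arrival := by
    rw [← nsmul_eq_mul]
    exact Finset.card_nsmul_le_sum _ _ _ hK
  have h2 : ∑ i ∈ K, ldB T a m i (T m).arrival ≤ ∑ i, ldB T a m i (T m).arrival :=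
    Finset.sum_le_sum_of_subset_of_nonneg (Finset.subset_univ _) fun i _ _ => ldB_nonneg _ _ _ _ _
  rw [sum_ldB] at h2
  classical
  have h3 : (∑ j ∈ Finset.range m, if (T j).ActiveAt (T m).arrival then (T j).weight else 0) ≤
      n * avg T m := by
    unfold avg
    rw [mul_div_cancel₀ _ hn.ne', Finset.sum_range_succ]
    have := (T m).weight_pos
    split_ifs <;> linarith
  have h4 : n * avg T m ≤ n * Lb T m := mul_le_mul_of_nonneg_left (avg_le_Lb T m) hn.le
  have h5 : (K.card : ℝ) * (Real.sqrt n * Lb T m) ≤ n * Lb T m :=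
    h1.trans (h2.trans (h3.trans h4))
  have h6 : (n : ℝ) = Real.sqrt n * Real.sqrt n := (Real.mul_self_sqrt hn.le).symm
  have h7 : (K.card : ℝ) * (Real.sqrt n * Lb T m) ≤ Real.sqrt n * (Real.sqrt n * Lb T m) := by
    calc (K.card : ℝ) * (Real.sqrt n * Lb T m) ≤ n * Lb T m := h5
      _ = Real.sqrt n * Real.sqrt n * Lb T m := by rw [← h6]
      _ = _ := by ring
  exact le_of_mul_le_mul_right h7 (by positivity)

theorem robin_hood_main [NeZero n] (hδ : 0 < δ) {T : ℕ → Task n δ} {a o : ℕ → Fin n} {N : ℕ}
    {C : ℝ} (hT : ∀ j k, j ≤ k → k < N → (T j).arrival ≤ (T k).arrival)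
    (ha : ∀ m, m < N → ∀ i ∈ (T m).admissible, run T a m (a m) ≤ run T a m i)
    (ho : ∀ m, m < N → o m ∈ (T m).admissible) (hC0 : 0 ≤ C)
    (hC : ∀ i t, ldB T o N i t ≤ C) (i : Fin n) (t : ℝ) :
    ldB T a N i t ≤ (2 * Real.sqrt n + 1) * C := by
  classical
  have hn : (0 : ℝ) < n := by
    have := NeZero.pos n
    exact_mod_cast this
  have hs : 0 < Real.sqrt n := Real.sqrt_pos.2 hn
  -- the lower bound is valid
  have hwC : ∀ m, m < N → (T m).weight ≤ C := by
    intro m hm
    refine le_trans ?_ (hC (o m) (T m).arrival)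
    unfold ldB
    refine le_trans ?_ (Finset.single_le_sum (f := fun j => if o j = o m ∧
      (T j).ActiveAt (T m).arrival then (T j).weight else 0) (fun j _ => ?_)
      (Finset.mem_range.2 hm))
    · have := (T m).min_le_duration
      rw [if_pos ⟨rfl, le_rfl, by linarith⟩]
    · have := (T j).weight_pos
      split_ifs <;> linarith
  have havgC : ∀ m, m < N → avg T m ≤ C := by
    intro m hm
    unfold avg
    rw [div_le_iff₀ hn]
    have h1 : (∑ j ∈ Finset.range (m + 1), if (T j).ActiveAt (T m).arrival then (T j).weight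
        else 0) ≤ ∑ j ∈ Finset.range N, if (T j).ActiveAt (T m).arrival then (T j).weight
        else 0 := by
      apply Finset.sum_le_sum_of_subset_of_nonneg
      · intro j hj
        rw [Finset.mem_range] at hj ⊢
        omega
      · intro j _ _
        have := (T j).weight_pos
        split_ifs <;> linarith
    rw [← sum_ldB T o N] at h1
    refine h1.trans ?_
    calc ∑ i, ldB T o N i (T m).arrival ≤ ∑ _i : Fin n, C := Finset.sum_le_sum fun i _ => hC i _
      _ = C * n := by simp [mul_comm]
  have hLC : ∀ m, m < N → Lb T m ≤ C := by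
    intro m
    induction m with
    | zero => intro hm; exact max_le (hwC 0 hm) (havgC 0 hm)
    | succ m ih =>
      intro hm
      exact max_le (ih (by omega)) (max_le (hwC _ hm) (havgC _ hm))
  have h0 : ∀ i, ¬ Rich T a 0 i := by
    intro i hcon
    unfold Rich ldB at hcon
    simp only [Finset.range_zero, Finset.sum_empty] at hcon
    have := mul_pos hs (Lb_pos T 0)
    linarith
  -- the load right after step `m` when `i` was poor before
  have hpoor : ∀ m, m < N → ¬ Rich T a m i →
      ldB T a (m + 1) i (T m).arrival ≤ (Real.sqrt n + 1) * C := by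
    intro m hm hr
    unfold Rich at hr
    have h1 := ldB_succ_le T a m i (T m).arrival
    have h2 := hwC m hm
    have h3 := mul_le_mul_of_nonneg_left (hLC m hm) hs.le
    push Not at hr
    nlinarith
  -- the load right after step `m`
  have hstep : ∀ m, m < N → ldB T a (m + 1) i (T m).arrival ≤ (2 * Real.sqrt n + 1) * C := by
    intro m hm
    by_cases hr : Rich T a m i
    · obtain ⟨hrm, hq⟩ := run_spec (h0 i) m
      set r := run T a m i with hrdef
      have hr1 : 1 ≤ r := by
        rw [hrdef]
        cases m with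
        | zero => exact absurd hr (h0 i)
        | succ m => simp [run, hr]
      obtain ⟨q, hqm⟩ : ∃ q, q + r = m := ⟨m - r, by omega⟩
      have hq' : m - r = q := by omega
      rw [hq'] at hq
      -- old tasks
      have hold : ldB T a (q + 1) i (T m).arrival ≤ (Real.sqrt n + 1) * C := by
        refine (ldB_anti a i (hT q m (by omega) hm) fun j hj => hT j q (by omega) (by omega)).trans
          (hpoor q (by omega) hq)
      -- recent tasks
      set K : Finset (Fin n) := Finset.univ.filter fun i' => Rich T a (q + 1) i' with hKdef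
      have hK := card_rich_le T a (q + 1) K (by intro i' hi'; simpa [hKdef] using hi')
      have hrec : ∀ j, q < j → j ≤ m → a j = i → ∀ i' ∈ (T j).admissible, i' ∈ K := by
        intro j hqj hjm haj i' hi'
        have h1 := ha j (by omega) i' hi'
        rw [haj, run_earlier (h0 i) hjm (by omega)] at h1
        rw [hKdef, Finset.mem_filter]
        exact ⟨Finset.mem_univ _, le_run h1 (q + 1) (by omega) (by omega)⟩
      have hsplit : ldB T a (m + 1) i (T m).arrival = ldB T a (q + 1) i (T m).arrival +
          ∑ j ∈ Finset.Ico (q + 1) (m + 1), if a j = i ∧ (T j).ActiveAt (T m).arrival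
            then (T j).weight else 0 := by
        unfold ldB
        rw [Finset.sum_range_add_sum_Ico _ (by omega)]
      have hrecsum : (∑ j ∈ Finset.Ico (q + 1) (m + 1),
          if a j = i ∧ (T j).ActiveAt (T m).arrival then (T j).weight else 0) ≤
          ∑ i' ∈ K, ldB T o N i' (T m).arrival := by
        unfold ldB
        rw [Finset.sum_comm]
        have hsub : Finset.Ico (q + 1) (m + 1) ⊆ Finset.range N := by
          intro j hj
          rw [Finset.mem_Ico] at hj
          rw [Finset.mem_range]
          omega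
        refine le_trans ?_ (Finset.sum_le_sum_of_subset_of_nonneg hsub ?_)
        · apply Finset.sum_le_sum
          intro j hj
          rw [Finset.mem_Ico] at hj
          by_cases hc : a j = i ∧ (T j).ActiveAt (T m).arrival
          · rw [if_pos hc]
            have hmem := hrec j (by omega) (by omega) hc.1 (o j) (ho j (by omega))
            refine le_trans ?_ (Finset.single_le_sum (f := fun i' => if o j = i' ∧
              (T j).ActiveAt (T m).arrival then (T j).weight else 0) (fun i' _ => ?_) hmem)
            · rw [if_pos ⟨rfl, hc.2⟩]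
            · have := (T j).weight_pos
              split_ifs <;> linarith
          · rw [if_neg hc]
            apply Finset.sum_nonneg
            intro i' _
            have := (T j).weight_pos
            split_ifs <;> linarith
        · intro j _ _
          apply Finset.sum_nonneg
          intro i' _
          have := (T j).weight_pos
          split_ifs <;> linarith
      have hKC : ∑ i' ∈ K, ldB T o N i' (T m).arrival ≤ Real.sqrt n * C := by
        calc ∑ i' ∈ K, ldB T o N i' (T m).arrival ≤ ∑ _i' ∈ K, C :=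
            Finset.sum_le_sum fun i' _ => hC i' _
          _ = K.card * C := by simp
          _ ≤ Real.sqrt n * C := mul_le_mul_of_nonneg_right hK hC0
      rw [hsplit]
      linarith
    · refine (hpoor m hm hr).trans ?_
      nlinarith [mul_nonneg hs.le hC0]
  -- all times
  have hall : ∀ m, m ≤ N → ∀ t, ldB T a m i t ≤ (2 * Real.sqrt n + 1) * C := by
    intro m
    induction m with
    | zero =>
      intro _ t
      unfold ldB
      simp only [Finset.range_zero, Finset.sum_empty]
      positivity
    | succ m ih =>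
      intro hm t
      by_cases ht : (T m).arrival ≤ t
      · exact (ldB_anti a i ht fun j hj => hT j m (by omega) (by omega)).trans
          (hstep m (by omega))
      · have : ldB T a (m + 1) i t = ldB T a m i t := by
          unfold ldB
          rw [Finset.sum_range_succ, if_neg (fun h => ht h.2.1), add_zero]
        rw [this]
        exact ih (by omega) t
  exact hall N le_rfl t

/-- The choice of the Robin Hood algorithm: an admissible machine whose current rich period is
the shortest one (of length `0` if the machine is poor). -/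
noncomputable def rhChoose (h : List (Task n δ)) (τ : Task n δ) : Fin n :=
  Classical.choose (Finset.exists_min_image τ.admissible
    (run (fun j => h.getD j τ)
      (fun j => if hj : j < h.length then rhChoose (h.take j) (h.get ⟨j, hj⟩)
        else τ.admissible_nonempty.choose) h.length) τ.admissible_nonempty)
termination_by h.length
decreasing_by all_goals (simp only [List.length_take]; omega)

theorem rhChoose_spec (h : List (Task n δ)) (τ : Task n δ) :
    rhChoose h τ ∈ τ.admissible ∧ ∀ i ∈ τ.admissible,
      run (fun j => h.getD j τ)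
        (fun j => if hj : j < h.length then rhChoose (h.take j) (h.get ⟨j, hj⟩)
          else τ.admissible_nonempty.choose) h.length (rhChoose h τ) ≤
      run (fun j => h.getD j τ)
        (fun j => if hj : j < h.length then rhChoose (h.take j) (h.get ⟨j, hj⟩)
          else τ.admissible_nonempty.choose) h.length i := by
  have h1 := Classical.choose_spec (Finset.exists_min_image τ.admissible
    (run (fun j => h.getD j τ)
      (fun j => if hj : j < h.length then rhChoose (h.take j) (h.get ⟨j, hj⟩)
        else τ.admissible_nonempty.choose) h.length) τ.admissible_nonempty)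
  have h2 : rhChoose h τ = Classical.choose (Finset.exists_min_image τ.admissible
    (run (fun j => h.getD j τ)
      (fun j => if hj : j < h.length then rhChoose (h.take j) (h.get ⟨j, hj⟩)
        else τ.admissible_nonempty.choose) h.length) τ.admissible_nonempty) := by
    conv_lhs => rw [rhChoose]
  rw [h2]
  exact h1

/-- The Robin Hood algorithm. -/
noncomputable def rhAlg (n : ℕ) (δ : ℝ) : OnlineAlg n δ where
  choose := rhChoose
  choose_mem h τ := (rhChoose_spec h τ).1

theorem load_eq_ldB (σ : List (Task n δ)) (b : Fin σ.length → Fin n) (T : ℕ → Task n δ)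
    (a : ℕ → Fin n) (hT : ∀ j : Fin σ.length, T j = σ.get j) (ha : ∀ j : Fin σ.length, a j = b j)
    (i : Fin n) (t : ℝ) : load σ b i t = ldB T a σ.length i t := by
  classical
  unfold load ldB
  rw [Finset.sum_range]
  apply Finset.sum_congr rfl
  intro j _
  rw [hT, ha]

theorem rh_cost_le [NeZero n] (hδ : 0 < δ) (σ : List (Task n δ)) (hσ : InOrder σ)
    (b : Fin σ.length → Fin n) (hb : ∀ j, b j ∈ (σ.get j).admissible) :
    cost σ ((rhAlg n δ).assign σ) ≤ (2 * Real.sqrt n + 1) * cost σ b := by
  classical
  apply cost_le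
  intro i t
  rcases σ.eq_nil_or_concat with hnil | ⟨σ', d, hd⟩
  · subst hnil
    have h1 : load ([] : List (Task n δ)) ((rhAlg n δ).assign []) i t = 0 := by
      simp [load]
    rw [h1]
    have := cost_nonneg [] b
    positivity
  · clear hd σ'
    set T : ℕ → Task n δ := fun j => σ.getD j d with hTdef
    have hT : ∀ j : Fin σ.length, T j = σ.get j := by
      intro j
      simp [hTdef]
    set a : ℕ → Fin n := fun j => if hj : j < σ.length then (rhAlg n δ).assign σ ⟨j, hj⟩
      else i with hadef
    have ha : ∀ j : Fin σ.length, a j = (rhAlg n δ).assign σ j := by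
      intro j
      simp [hadef]
    set o : ℕ → Fin n := fun j => if hj : j < σ.length then b ⟨j, hj⟩ else i with hodef
    have ho : ∀ j : Fin σ.length, o j = b j := by
      intro j
      simp [hodef]
    rw [load_eq_ldB σ _ T a hT ha]
    apply robin_hood_main hδ (o := o)
    · intro j k hjk hk
      have h1 := hT ⟨j, by omega⟩
      have h2 := hT ⟨k, hk⟩
      simp only at h1 h2
      rw [h1, h2]
      rcases Nat.lt_or_ge j k with h3 | h3
      · exact List.pairwise_iff_get.1 hσ ⟨j, by omega⟩ ⟨k, hk⟩ h3
      · have : j = k := by omega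
        subst this
        exact le_rfl
    · intro m hm i' hi'
      have h1 := hT ⟨m, hm⟩
      simp only at h1
      rw [h1] at hi'
      have h2 := (rhChoose_spec (σ.take m) (σ.get ⟨m, hm⟩)).2 i' hi'
      have hlen : (σ.take m).length = m := by simp; omega
      have h3 : a m = rhChoose (σ.take m) (σ.get ⟨m, hm⟩) := ha ⟨m, hm⟩
      have hTT : ∀ j, j ≤ m → (fun j => (σ.take m).getD j (σ.get ⟨m, hm⟩)) j = T j := by
        intro j hj
        rcases Nat.lt_or_ge j m with h4 | h4
        · simp only [hTdef]
          rw [List.getD_eq_getElem _ _ (by omega), List.getD_eq_getElem _ _ (by omega)]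
          simp
        · have : j = m := by omega
          subst this
          rw [h1]
          simp only
          rw [List.getD_eq_default _ _ (by omega)]
      have haa : ∀ j, j < m → (fun j => if hj : j < (σ.take m).length then
          rhChoose ((σ.take m).take j) ((σ.take m).get ⟨j, hj⟩)
          else (σ.get ⟨m, hm⟩).admissible_nonempty.choose) j = a j := by
        intro j hj
        have h4 : a j = rhChoose (σ.take j) (σ.get ⟨j, by omega⟩) := ha ⟨j, by omega⟩
        rw [h4]
        simp only
        rw [dif_pos (by omega)]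
        congr 1
        · rw [List.take_take]
          congr 1
          omega
        · simp
      have key : ∀ (F : ℕ → Task n δ) (G : ℕ → Fin n) (N : ℕ), N = m →
          (∀ j, j ≤ m → F j = T j) → (∀ j, j < m → G j = a j) →
          ∀ y, run F G N y = run T a m y := by
        intro F G N hN hF hG y
        rw [hN]
        exact run_congr hF hG y
      rw [key _ _ _ hlen hTT haa, key _ _ _ hlen hTT haa, ← h3] at h2
      exact h2
    · intro m hm
      have h1 := hT ⟨m, hm⟩
      have h2 := ho ⟨m, hm⟩
      simp only at h1 h2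
      rw [h1, h2]
      exact hb _
    · exact cost_nonneg σ b
    · intro i t
      rw [← load_eq_ldB σ b T o hT ho]
      exact load_le_cost σ b i t

theorem exists_assignment (σ : List (Task n δ)) :
    Nonempty {a : Fin σ.length → Fin n // ∀ j, a j ∈ (σ.get j).admissible} :=
  ⟨⟨fun j => (σ.get j).admissible_nonempty.choose,
    fun j => (σ.get j).admissible_nonempty.choose_spec⟩⟩

theorem rh_competitive [NeZero n] (hδ : 0 < δ) :
    (rhAlg n δ).Competitive (2 * Real.sqrt n + 1) := by
  intro σ hσ
  have hpos : 0 < 2 * Real.sqrt n + 1 := by positivity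
  rw [← div_le_iff₀' hpos]
  have := exists_assignment σ
  unfold opt
  apply le_ciInf
  intro b
  rw [div_le_iff₀' hpos]
  exact rh_cost_le hδ σ hσ b.1 b.2

/-- A deterministic algorithm as a randomized one. -/
noncomputable def ofDet (A : OnlineAlg n δ) : RandAlg n δ where
  Ω := Unit
  μ := Measure.dirac ()
  alg := fun _ => A
  measurable_choose := fun _ _ => measurable_const

theorem ofDet_expCost (A : OnlineAlg n δ) (σ : List (Task n δ)) :
    (ofDet A).expCost σ = cost σ (A.assign σ) := by
  unfold RandAlg.expCost ofDet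
  simp

end RobinHood

/-- Explicit bounds for every number `n ≥ 1` of machines. -/
theorem ratio_bounds {δ : ℝ} (hδ : 0 < δ) {n : ℕ} (hn : 1 ≤ n) :
    (Real.sqrt (2 * n) - 1 / 2 ≤ detRatio n δ ∧ detRatio n δ ≤ 2 * Real.sqrt n + 1) ∧
    (Real.sqrt (n / 2) + 1 / 4 ≤ randRatio n δ ∧ randRatio n δ ≤ 2 * Real.sqrt n + 1) := by
  have : NeZero n := ⟨by omega⟩
  have hdet : (2 * Real.sqrt n + 1) ∈ {c : ℝ | ∃ A : OnlineAlg n δ, A.Competitive c} :=
    ⟨rhAlg n δ, rh_competitive hδ⟩
  have hrand : (2 * Real.sqrt n + 1) ∈ {c : ℝ | ∃ A : RandAlg n δ, A.Competitive c} := by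
    refine ⟨ofDet (rhAlg n δ), fun σ hσ => ?_⟩
    rw [ofDet_expCost]
    exact rh_competitive hδ σ hσ
  obtain ⟨k, hk, hkn⟩ := exists_level hn
  have hbd1 : BddBelow {c : ℝ | ∃ A : OnlineAlg n δ, A.Competitive c} :=
    ⟨(k : ℝ) + 1, fun c ⟨A, hA⟩ => det_lower hδ A hA k hk⟩
  have hbd2 : BddBelow {c : ℝ | ∃ A : RandAlg n δ, A.Competitive c} :=
    ⟨1 / 2 * (k : ℝ) + 1, fun c ⟨A, hA⟩ => rand_lower hδ A hA k hk⟩
  have hsq : Real.sqrt (n / 2) = Real.sqrt (2 * n) / 2 := by
    rw [show (n / 2 : ℝ) = (2 * n) / 2 ^ 2 by ring, Real.sqrt_div (by positivity),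
      Real.sqrt_sq (by norm_num)]
  refine ⟨⟨?_, csInf_le hbd1 hdet⟩, ⟨?_, csInf_le hbd2 hrand⟩⟩
  · apply le_csInf ⟨_, hdet⟩
    rintro c ⟨A, hA⟩
    have := det_lower hδ A hA k hk
    linarith
  · apply le_csInf ⟨_, hrand⟩
    rintro c ⟨A, hA⟩
    have := rand_lower hδ A hA k hk
    rw [hsq]
    linarith

theorem isTheta_of_bounds {f : ℕ → ℝ}
    (h : ∀ n : ℕ, 1 ≤ n → 1 / 2 * Real.sqrt n ≤ f n ∧ f n ≤ 3 * Real.sqrt n) :
    f =Θ[Filter.atTop] fun n : ℕ => Real.sqrt n := by
  have h0 : ∀ n : ℕ, 1 ≤ n → 0 ≤ f n := fun n hn =>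
    le_trans (by positivity) (h n hn).1
  constructor
  · apply Asymptotics.IsBigO.of_bound 3
    filter_upwards [Filter.eventually_ge_atTop 1] with n hn
    rw [Real.norm_of_nonneg (h0 n hn), Real.norm_of_nonneg (Real.sqrt_nonneg _)]
    exact (h n hn).2
  · apply Asymptotics.IsBigO.of_bound 2
    filter_upwards [Filter.eventually_ge_atTop 1] with n hn
    rw [Real.norm_of_nonneg (h0 n hn), Real.norm_of_nonneg (Real.sqrt_nonneg _)]
    linarith [(h n hn).1]

end Pool.Agent.H78.OnlineLB
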